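import Pool.Agent.Helper58.Bil.Defs

/-!
BIL-TOOLS-B: the scalar implicit function `zer` (MP_190632_an).
-/

set_option autoImplicit false

namespace Pool.Agent.Helper58.Bil

open Real Set Filter Topology Asymptotics

theorem zer_mem {G : Type} (Φ : ℝ × G → ℝ) {a b : ℝ} (hab : a ≤ b) (q : G) :
    zer Φ a b q ∈ Icc a b := by
  unfold zer
  split_ifs with h
  · exact h.choose_spec.1
  · exact ⟨le_refl _, hab⟩

theorem zer_spec {G : Type} (Φ : ℝ × G → ℝ) {a b : ℝ} (q : G)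
    (h : ∃ D ∈ Icc a b, Φ (D, q) = 0) :
    zer Φ a b q ∈ Icc a b ∧ Φ (zer Φ a b q, q) = 0 := by
  unfold zer
  rw [dif_pos h]
  exact h.choose_spec

open Classical in
/-- auxiliary choice function -/
noncomputable def zpick (P : ℝ → Prop) (a : ℝ) : ℝ := if h : ∃ D, P D then h.choose else a

theorem zer_eq_zpick {G : Type} (Φ : ℝ × G → ℝ) (a b : ℝ) (q : G) :
    zer Φ a b q = zpick (fun D => D ∈ Icc a b ∧ Φ (D, q) = 0) a := rfl

theorem zer_congr {G G' : Type} (Φ : ℝ × G → ℝ) (Ψ : ℝ × G' → ℝ) (a b : ℝ) (q : G) (q' : G')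
    (h : ∀ D ∈ Icc a b, Φ (D, q) = Ψ (D, q')) : zer Φ a b q = zer Ψ a b q' := by
  rw [zer_eq_zpick, zer_eq_zpick]
  congr 1
  funext D
  apply propext
  constructor
  · rintro ⟨h1, h2⟩
    exact ⟨h1, by rw [← h D h1]; exact h2⟩
  · rintro ⟨h1, h2⟩
    exact ⟨h1, by rw [h D h1]; exact h2⟩

section zer
variable {X : Type} [NormedAddCommGroup X] [NormedSpace ℝ X]

/-- derivative of a scalar implicit function (no completeness). -/
theorem implicit_hasFDerivAt {Φ : ℝ × X → ℝ} {z : X → ℝ} {q₀ : X} {L : ℝ × X →L[ℝ] ℝ}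
    (hL : HasFDerivAt Φ L (z q₀, q₀)) (hc : L (1, 0) ≠ 0) (hz : ContinuousAt z q₀)
    (h0 : ∀ᶠ q in 𝓝 q₀, Φ (z q, q) = 0) :
    HasFDerivAt z (-((L (1, 0))⁻¹ • L.comp (ContinuousLinearMap.inr ℝ ℝ X))) q₀ := by
  have e0 : Φ (z q₀, q₀) = 0 := h0.self_of_nhds
  have ht : Tendsto (fun q => (z q, q)) (𝓝 q₀) (𝓝 (z q₀, q₀)) := hz.prodMk_nhds continuousAt_id
  have h1 := hL.isLittleO.comp_tendsto ht
  -- the linear combination
  have hsplit : ∀ (x : ℝ) (v : X), L (x, v) = x * L (1, 0) + L (0, v) := by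
    intro x v
    have : ((x, v) : ℝ × X) = x • ((1, 0) : ℝ × X) + (0, v) := by
      simp
    rw [this, map_add, map_smul, smul_eq_mul]
  set c := L (1, 0) with hcdef
  set w : X → ℝ × X := fun q => (z q - z q₀, q - q₀) with hw
  set r : X → ℝ := fun q => z q - z q₀ - (-(c⁻¹ • L.comp (ContinuousLinearMap.inr ℝ ℝ X))) (q - q₀)
    with hr
  have hrL : ∀ q, r q = c⁻¹ * L (w q) := by
    intro q
    simp only [hr, hw]
    rw [hsplit]
    simp only [neg_apply, smul_apply,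
      ContinuousLinearMap.comp_apply, ContinuousLinearMap.inr_apply, smul_eq_mul, sub_neg_eq_add]
    field_simp
  have h2 : r =o[𝓝 q₀] w := by
    have h3 : (fun q => L (w q)) =o[𝓝 q₀] w := by
      have h4 : (fun q => -(L (w q))) =o[𝓝 q₀] w := by
        refine h1.congr' ?_ ?_
        · filter_upwards [h0] with q hq
          simp only [Function.comp_apply, hq, e0, hw]
          simp
        · filter_upwards with q
          simp [hw]
      simpa using h4.neg_left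
    have h5 : r = fun q => c⁻¹ * L (w q) := funext hrL
    rw [h5]
    exact h3.const_mul_left _
  have h3 : (fun q => ((r q, 0) : ℝ × X)) =o[𝓝 q₀] w := by
    refine IsLittleO.of_norm_left ?_
    refine (h2.norm_left).congr_left ?_
    intro q
    simp [Prod.norm_def]
  have h4 := h3.right_isBigO_sub
  have h5 : (fun q => w q - (r q, 0)) =O[𝓝 q₀] fun q => q - q₀ := by
    have h6 : (fun q => w q - (r q, 0)) = fun q =>
        ((-(c⁻¹ • L.comp (ContinuousLinearMap.inr ℝ ℝ X))).prod (ContinuousLinearMap.id ℝ X))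
          (q - q₀) := by
      funext q
      simp only [hw, hr, ContinuousLinearMap.prod_apply]
      ext <;> simp
    rw [h6]
    exact ContinuousLinearMap.isBigO_comp _ _ _
  exact HasFDerivAt.of_isLittleO (h2.trans_isBigO (h4.trans h5))

/-- the section derivative -/
theorem section_hasDerivAt {Φ : ℝ × X → ℝ} {D : ℝ} {q : X} (h : DifferentiableAt ℝ Φ (D, q)) :
    HasDerivAt (fun D' => Φ (D', q)) (fderiv ℝ Φ (D, q) (1, 0)) D := by
  have h1 : HasDerivAt (fun D' : ℝ => ((D', q) : ℝ × X)) (1, 0) D :=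
    (hasDerivAt_id D).prodMk (hasDerivAt_const D q)
  exact h.hasFDerivAt.comp_hasDerivAt D h1

/-- uniqueness and existence of the zero at a good parameter -/
theorem zer_good {Φ : ℝ × X → ℝ} {a b : ℝ} (hab : a < b) {q : X}
    (hs : ∀ D ∈ Icc a b, ContDiffAt ℝ ((⊤ : ℕ∞) : WithTop ℕ∞) Φ (D, q))
    (hd : ∀ D ∈ Icc a b, 0 < fderiv ℝ Φ (D, q) (1, 0))
    (ha : Φ (a, q) < 0) (hb : 0 < Φ (b, q)) :
    StrictMonoOn (fun D => Φ (D, q)) (Icc a b) ∧ zer Φ a b q ∈ Ioo a b ∧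
      Φ (zer Φ a b q, q) = 0 ∧ ∀ D ∈ Icc a b, Φ (D, q) = 0 → D = zer Φ a b q := by
  have hdiff : ∀ D ∈ Icc a b, HasDerivAt (fun D' => Φ (D', q)) (fderiv ℝ Φ (D, q) (1, 0)) D :=
    fun D hD => section_hasDerivAt ((hs D hD).differentiableAt (by simp))
  have hcont : ContinuousOn (fun D => Φ (D, q)) (Icc a b) :=
    fun D hD => (hdiff D hD).continuousAt.continuousWithinAt
  have hmono : StrictMonoOn (fun D => Φ (D, q)) (Icc a b) := by
    refine strictMonoOn_of_deriv_pos (convex_Icc a b) hcont ?_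
    intro D hD
    rw [interior_Icc] at hD
    rw [(hdiff D (Ioo_subset_Icc_self hD)).deriv]
    exact hd D (Ioo_subset_Icc_self hD)
  obtain ⟨D₀, hD₀, hD₀'⟩ : ∃ D ∈ Icc a b, Φ (D, q) = 0 :=
    intermediate_value_Icc hab.le hcont (show (0 : ℝ) ∈ Icc (Φ (a, q)) (Φ (b, q)) from
      ⟨ha.le, hb.le⟩)
  obtain ⟨h1, h2⟩ := zer_spec Φ q ⟨D₀, hD₀, hD₀'⟩
  refine ⟨hmono, ⟨?_, ?_⟩, h2, ?_⟩
  · rcases lt_or_eq_of_le h1.1 with h | h
    · exact h
    · rw [← h] at h2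
      linarith
  · rcases lt_or_eq_of_le h1.2 with h | h
    · exact h
    · rw [h] at h2
      linarith
  · intro D hD hD'
    exact hmono.injOn hD h1 (by simp only [hD', h2])

/-- T2 (scalar implicit function near a point). -/
theorem SmAt.zer {Φ : ℝ × X → ℝ} {a b : ℝ} (hab : a < b) {p : X}
    (hs : ∀ D ∈ Icc a b, SmAt Φ (D, p))
    (hd : ∀ D ∈ Icc a b, 0 < deriv (fun D' => Φ (D', p)) D)
    (ha : Φ (a, p) < 0) (hb : 0 < Φ (b, p)) :
    SmAt (Bil.zer Φ a b) p ∧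
      ∀ᶠ q in 𝓝 p, Bil.zer Φ a b q ∈ Ioo a b ∧ Φ (Bil.zer Φ a b q, q) = 0 ∧
        ∀ D ∈ Icc a b, Φ (D, q) = 0 → D = Bil.zer Φ a b q := by
  -- uniform good neighbourhood
  have hK : ∀ᶠ q in 𝓝 p, ∀ D ∈ Icc a b, ContDiffAt ℝ ((⊤ : ℕ∞) : WithTop ℕ∞) Φ (D, q) ∧
      0 < fderiv ℝ Φ (D, q) (1, 0) := by
    refine isCompact_Icc.eventually_forall_of_forall_eventually
      (P := fun q D => ContDiffAt ℝ ((⊤ : ℕ∞) : WithTop ℕ∞) Φ (D, q) ∧
        0 < fderiv ℝ Φ (D, q) (1, 0)) ?_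
    intro D hD
    have hsw : Tendsto (Prod.swap : X × ℝ → ℝ × X) (𝓝 (p, D)) (𝓝 (D, p)) :=
      continuous_swap.continuousAt
    have h1 := hs D hD
    have hcd : ContDiffAt ℝ ((⊤ : ℕ∞) : WithTop ℕ∞) Φ (D, p) := h1.self_of_nhds
    have h2 : ContinuousAt (fun w => fderiv ℝ Φ w (1, 0)) (D, p) :=
      (hcd.fderiv_right (m := 0) (by simp)).continuousAt.clm_apply continuousAt_const
    have h3 : 0 < fderiv ℝ Φ (D, p) (1, 0) := by
      have := hd D hD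
      rwa [(section_hasDerivAt (hcd.differentiableAt (by simp))).deriv] at this
    have h4 : ∀ᶠ w in 𝓝 (D, p), 0 < fderiv ℝ Φ w (1, 0) := h2.eventually (lt_mem_nhds h3)
    have h5 := hsw.eventually (h1.and h4)
    exact h5
  have hA : ∀ᶠ q in 𝓝 p, Φ (a, q) < 0 := by
    have hc : ContinuousAt Φ (a, p) := (hs a (left_mem_Icc.2 hab.le)).self_of_nhds.continuousAt
    have hc2 : ContinuousAt (fun q => Φ (a, q)) p :=
      ContinuousAt.comp (f := fun q => ((a, q) : ℝ × X)) hc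
        (continuousAt_const.prodMk continuousAt_id)
    exact hc2.eventually (gt_mem_nhds ha)
  have hB : ∀ᶠ q in 𝓝 p, 0 < Φ (b, q) := by
    have hc : ContinuousAt Φ (b, p) := (hs b (right_mem_Icc.2 hab.le)).self_of_nhds.continuousAt
    have hc2 : ContinuousAt (fun q => Φ (b, q)) p :=
      ContinuousAt.comp (f := fun q => ((b, q) : ℝ × X)) hc
        (continuousAt_const.prodMk continuousAt_id)
    exact hc2.eventually (lt_mem_nhds hb)
  -- good parameters form a neighbourhood of each good parameter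
  have hgood : ∀ᶠ q₀ in 𝓝 p, ∀ᶠ q in 𝓝 q₀, (∀ D ∈ Icc a b,
      ContDiffAt ℝ ((⊤ : ℕ∞) : WithTop ℕ∞) Φ (D, q) ∧ 0 < fderiv ℝ Φ (D, q) (1, 0)) ∧
      Φ (a, q) < 0 ∧ 0 < Φ (b, q) := eventually_eventually_nhds.2 (hK.and (hA.and hB))
  have hz : ∀ q, ((∀ D ∈ Icc a b,
      ContDiffAt ℝ ((⊤ : ℕ∞) : WithTop ℕ∞) Φ (D, q) ∧ 0 < fderiv ℝ Φ (D, q) (1, 0)) ∧
      Φ (a, q) < 0 ∧ 0 < Φ (b, q)) →
      StrictMonoOn (fun D => Φ (D, q)) (Icc a b) ∧ Bil.zer Φ a b q ∈ Ioo a b ∧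
      Φ (Bil.zer Φ a b q, q) = 0 ∧ ∀ D ∈ Icc a b, Φ (D, q) = 0 → D = Bil.zer Φ a b q := by
    rintro q ⟨h1, h2, h3⟩
    exact zer_good hab (fun D hD => (h1 D hD).1) (fun D hD => (h1 D hD).2) h2 h3
  -- continuity at good points
  have hcont : ∀ q₀, (∀ᶠ q in 𝓝 q₀, (∀ D ∈ Icc a b,
      ContDiffAt ℝ ((⊤ : ℕ∞) : WithTop ℕ∞) Φ (D, q) ∧ 0 < fderiv ℝ Φ (D, q) (1, 0)) ∧
      Φ (a, q) < 0 ∧ 0 < Φ (b, q)) → ContinuousAt (Bil.zer Φ a b) q₀ := by
    intro q₀ hq₀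
    obtain ⟨hm, hI, h0, -⟩ := hz q₀ hq₀.self_of_nhds
    have hsm := hq₀.self_of_nhds.1
    rw [Metric.continuousAt_iff']
    intro ε hε
    -- choose smaller interval inside
    obtain ⟨l, hl1, hl2, hl3⟩ : ∃ l, l ∈ Icc a b ∧ l < Bil.zer Φ a b q₀ ∧
        Bil.zer Φ a b q₀ - ε < l := by
      refine ⟨max a (Bil.zer Φ a b q₀ - ε / 2), ⟨le_max_left _ _, ?_⟩, ?_, ?_⟩
      · exact max_le hab.le (by linarith [hI.2])
      · exact max_lt hI.1 (by linarith)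
      · exact lt_of_lt_of_le (by linarith) (le_max_right _ _)
    obtain ⟨u, hu1, hu2, hu3⟩ : ∃ u, u ∈ Icc a b ∧ Bil.zer Φ a b q₀ < u ∧
        u < Bil.zer Φ a b q₀ + ε := by
      refine ⟨min b (Bil.zer Φ a b q₀ + ε / 2), ⟨?_, min_le_left _ _⟩, ?_, ?_⟩
      · exact le_min hab.le (by linarith [hI.1])
      · exact lt_min hI.2 (by linarith)
      · exact lt_of_le_of_lt (min_le_right _ _) (by linarith)
    have hl4 : Φ (l, q₀) < 0 := by
      have := hm hl1 (Ioo_subset_Icc_self hI) hl2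
      simpa only [h0] using this
    have hu4 : 0 < Φ (u, q₀) := by
      have := hm (Ioo_subset_Icc_self hI) hu1 hu2
      simpa only [h0] using this
    have e1 : ∀ᶠ q in 𝓝 q₀, Φ (l, q) < 0 := by
      have hc2 : ContinuousAt (fun q => Φ (l, q)) q₀ :=
        ContinuousAt.comp (f := fun q => ((l, q) : ℝ × X)) (hsm l hl1).1.continuousAt
          (continuousAt_const.prodMk continuousAt_id)
      exact hc2.eventually (gt_mem_nhds hl4)
    have e2 : ∀ᶠ q in 𝓝 q₀, 0 < Φ (u, q) := by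
      have hc2 : ContinuousAt (fun q => Φ (u, q)) q₀ :=
        ContinuousAt.comp (f := fun q => ((u, q) : ℝ × X)) (hsm u hu1).1.continuousAt
          (continuousAt_const.prodMk continuousAt_id)
      exact hc2.eventually (lt_mem_nhds hu4)
    filter_upwards [hq₀, e1, e2] with q hq h1 h2
    obtain ⟨hm', hI', h0', -⟩ := hz q hq
    have h3 : l < Bil.zer Φ a b q := by
      by_contra hcon
      push Not at hcon
      have := hm'.monotoneOn (Ioo_subset_Icc_self hI') hl1 hcon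
      simp only [h0'] at this
      linarith
    have h4 : Bil.zer Φ a b q < u := by
      by_contra hcon
      push Not at hcon
      have := hm'.monotoneOn hu1 (Ioo_subset_Icc_self hI') hcon
      simp only [h0'] at this
      linarith
    rw [Real.dist_eq, abs_lt]
    constructor <;> linarith
  -- differentiability
  have hder : ∀ q₀, (∀ᶠ q in 𝓝 q₀, (∀ D ∈ Icc a b,
      ContDiffAt ℝ ((⊤ : ℕ∞) : WithTop ℕ∞) Φ (D, q) ∧ 0 < fderiv ℝ Φ (D, q) (1, 0)) ∧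
      Φ (a, q) < 0 ∧ 0 < Φ (b, q)) → HasFDerivAt (Bil.zer Φ a b)
        (-((fderiv ℝ Φ (Bil.zer Φ a b q₀, q₀) (1, 0))⁻¹ •
          (fderiv ℝ Φ (Bil.zer Φ a b q₀, q₀)).comp (ContinuousLinearMap.inr ℝ ℝ X))) q₀ := by
    intro q₀ hq₀
    obtain ⟨hm, hI, h0, -⟩ := hz q₀ hq₀.self_of_nhds
    have hsm := hq₀.self_of_nhds.1 _ (Ioo_subset_Icc_self hI)
    refine implicit_hasFDerivAt (hsm.1.differentiableAt (by simp)).hasFDerivAt hsm.2.ne'
      (hcont q₀ hq₀) ?_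
    filter_upwards [hq₀] with q hq
    exact (hz q hq).2.2.1
  -- smoothness
  have hsmooth : ∀ n : ℕ, ∀ q₀, (∀ᶠ q in 𝓝 q₀, (∀ D ∈ Icc a b,
      ContDiffAt ℝ ((⊤ : ℕ∞) : WithTop ℕ∞) Φ (D, q) ∧ 0 < fderiv ℝ Φ (D, q) (1, 0)) ∧
      Φ (a, q) < 0 ∧ 0 < Φ (b, q)) → ContDiffAt ℝ (n : ℕ∞) (Bil.zer Φ a b) q₀ := by
    intro n
    induction n with
    | zero =>
      intro q₀ hq₀
      have h1 : ∀ᶠ q in 𝓝 q₀, ContinuousAt (Bil.zer Φ a b) q :=
        (eventually_eventually_nhds.2 hq₀).mono hcont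
      rw [Nat.cast_zero]
      refine contDiffAt_zero.2 ⟨{q | ContinuousAt (Bil.zer Φ a b) q}, h1, ?_⟩
      intro q hq
      exact ContinuousAt.continuousWithinAt hq
    | succ n ih =>
      intro q₀ hq₀
      have hev := eventually_eventually_nhds.2 hq₀
      have hcast : (((n + 1 : ℕ) : ℕ∞) : WithTop ℕ∞) = ((n : ℕ∞) : WithTop ℕ∞) + 1 := by
        push_cast; rfl
      rw [hcast]
      refine contDiffAt_succ_iff_hasFDerivAt.2 ⟨fun q =>
        (-((fderiv ℝ Φ (Bil.zer Φ a b q, q) (1, 0))⁻¹ •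
          (fderiv ℝ Φ (Bil.zer Φ a b q, q)).comp (ContinuousLinearMap.inr ℝ ℝ X))),
        ⟨{q | ∀ᶠ q' in 𝓝 q, (∀ D ∈ Icc a b,
          ContDiffAt ℝ ((⊤ : ℕ∞) : WithTop ℕ∞) Φ (D, q') ∧ 0 < fderiv ℝ Φ (D, q') (1, 0)) ∧
          Φ (a, q') < 0 ∧ 0 < Φ (b, q')}, hev, fun q hq => hder q hq⟩, ?_⟩
      obtain ⟨hm, hI, h0, -⟩ := hz q₀ hq₀.self_of_nhds
      have hsm := hq₀.self_of_nhds.1 _ (Ioo_subset_Icc_self hI)
      have hpair : ContDiffAt ℝ ((n : ℕ∞) : WithTop ℕ∞) (fun q => (Bil.zer Φ a b q, q)) q₀ :=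
        (ih q₀ hq₀).prodMk contDiffAt_id
      have hfd : ContDiffAt ℝ ((n : ℕ∞) : WithTop ℕ∞)
          (fun q => fderiv ℝ Φ (Bil.zer Φ a b q, q)) q₀ := by
        have h1 : ContDiffAt ℝ ((n : ℕ∞) : WithTop ℕ∞) (fderiv ℝ Φ) (Bil.zer Φ a b q₀, q₀) :=
          hsm.1.fderiv_right (by
            rw [← hcast]
            exact_mod_cast le_top)
        exact ContDiffAt.comp q₀ (g := fderiv ℝ Φ) (f := fun q => (Bil.zer Φ a b q, q)) h1 hpair
      have h1 : ContDiffAt ℝ ((n : ℕ∞) : WithTop ℕ∞)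
          (fun q => fderiv ℝ Φ (Bil.zer Φ a b q, q) (1, 0)) q₀ := hfd.clm_apply contDiffAt_const
      have h2 : ContDiffAt ℝ ((n : ℕ∞) : WithTop ℕ∞)
          (fun q => (fderiv ℝ Φ (Bil.zer Φ a b q, q) (1, 0))⁻¹) q₀ := h1.inv hsm.2.ne'
      exact (h2.smul (hfd.clm_comp contDiffAt_const)).neg
  refine ⟨?_, ?_⟩
  · filter_upwards [hgood] with q₀ hq₀
    exact contDiffAt_infty.2 fun n => hsmooth n q₀ hq₀
  · filter_upwards [hK, hA, hB] with q h1 h2 h3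
    obtain ⟨-, h5, h6, h7⟩ := hz q ⟨h1, h2, h3⟩
    exact ⟨h5, h6, h7⟩

end zer

end Pool.Agent.Helper58.Bil
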